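import Pool.Agent.H82.PRP.Stmts

/-!
# EIDX: index of the image of `D (n+1)` in `F_p[Q_m] ⋊ Q_m`
-/

namespace Pool.Agent.H82.PRP

open Filter Topology

namespace EIDX

/-- the projection `E1 p Q → Q` -/
noncomputable def qHom (p : ℕ) (Q : Type) [Group Q] : E1 p Q →* Q where
  toFun := E1.q
  map_one' := rfl
  map_mul' _ _ := rfl

/-- elements `(u, 1)` whose pair lies in a subgroup -/
noncomputable def fib (p : ℕ) {Q : Type} [Group Q] (B : Subgroup (E1 p Q)) :
    AddSubgroup (MonoidAlgebra (ZMod p) Q) where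
  carrier := {u | (⟨u, 1⟩ : E1 p Q) ∈ B}
  zero_mem' := B.one_mem
  add_mem' := by
    intro a b ha hb
    have h := B.mul_mem ha hb
    have e : (⟨a, 1⟩ : E1 p Q) * ⟨b, 1⟩ = ⟨a + b, 1⟩ := by
      ext1
      · rw [E1.mul_u, map_one, one_mul]
      · simp
    rw [e] at h
    exact h
  neg_mem' := by
    intro a ha
    have h := B.inv_mem ha
    have e : (⟨a, 1⟩ : E1 p Q)⁻¹ = ⟨-a, 1⟩ := by
      ext1
      · rw [E1.inv_u, inv_one, map_one, one_mul]
      · simp
    rw [e] at h
    exact h

theorem mem_fib {p : ℕ} {Q : Type} [Group Q] {B : Subgroup (E1 p Q)}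
    {u : MonoidAlgebra (ZMod p) Q} : u ∈ fib p B ↔ (⟨u, 1⟩ : E1 p Q) ∈ B := Iff.rfl

/-- the augmentation ideal is spanned by the `g - 1` -/
theorem augI_le_span (p : ℕ) (Q : Type) [Group Q] : augI p Q ≤
    Submodule.span (ZMod p) (Set.range fun g : Q => MonoidAlgebra.of (ZMod p) Q g - 1) := by
  have key : ∀ f : MonoidAlgebra (ZMod p) Q, f - algebraMap (ZMod p) _ (augMap p Q f) ∈
      Submodule.span (ZMod p) (Set.range fun g : Q => MonoidAlgebra.of (ZMod p) Q g - 1) := by
    intro f
    refine MonoidAlgebra.induction_on (motive := fun f =>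
      f - algebraMap (ZMod p) _ (augMap p Q f) ∈
      Submodule.span (ZMod p) (Set.range fun g : Q => MonoidAlgebra.of (ZMod p) Q g - 1)) f ?_ ?_ ?_
    · intro g
      have e : augMap p Q (MonoidAlgebra.of (ZMod p) Q g) = 1 := by
        unfold augMap
        rw [MonoidAlgebra.lift_of]
        rfl
      rw [e, map_one]
      exact Submodule.subset_span ⟨g, rfl⟩
    · intro f g hf hg
      have e : f + g - algebraMap (ZMod p) _ (augMap p Q (f + g)) =
          (f - algebraMap (ZMod p) _ (augMap p Q f)) +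
          (g - algebraMap (ZMod p) _ (augMap p Q g)) := by
        rw [map_add, map_add]
        abel
      rw [e]
      exact Submodule.add_mem _ hf hg
    · intro r f hf
      have e : r • f - algebraMap (ZMod p) _ (augMap p Q (r • f)) =
          r • (f - algebraMap (ZMod p) _ (augMap p Q f)) := by
        rw [map_smul, smul_sub, smul_eq_mul, map_mul, ← Algebra.smul_def]
      rw [e]
      exact Submodule.smul_mem _ _ hf
  intro f hf
  have h := key f
  have h0 : augMap p Q f = 0 := hf
  rw [h0, map_zero, sub_zero] at h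
  exact h

end EIDX

open EIDX

theorem eidx_thm (hCMP : CMPStmt) (hLFIN : LFINStmt) : EIDXStmt := by
  intro p _ F _ _ _ _ _ gen D hF α β hα hβ m n hn
  obtain ⟨-, hαs, hβs, hq, -, -, -, -, -⟩ := hCMP p F gen D hF α β hα hβ
  obtain ⟨⟨hfQ, -⟩, ⟨hfE, -⟩⟩ := hLFIN p m
  -- the pairs `(u, 1)` with `u ∈ I^k` are in the image of `D (k+1)`
  have step : ∀ k, ∀ u ∈ (augI p (Lamp p m)) ^ k,
      (⟨u, 1⟩ : E1 p (Lamp p m)) ∈ (D (k + 1)).map (β m) := by
    intro k
    induction k with
    | zero =>
      intro u _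
      obtain ⟨w, hw⟩ := hβs m ⟨u, 1⟩
      refine ⟨w, ?_, hw⟩
      have : D (0 + 1) = ⊤ := hF.one
      rw [SetLike.mem_coe, this]
      exact Subgroup.mem_top w
    | succ k ih =>
      have hle : (augI p (Lamp p m)) ^ (k + 1) ≤
          AddSubgroup.toZModSubmodule p (fib p ((D (k + 1 + 1)).map (β m))) := by
        rw [pow_succ', Submodule.mul_le]
        intro a ha b hb
        have ha' := augI_le_span p (Lamp p m) ha
        have hle2 : Submodule.span (ZMod p)
            (Set.range fun g : Lamp p m => MonoidAlgebra.of (ZMod p) (Lamp p m) g - 1) ≤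
            (AddSubgroup.toZModSubmodule p (fib p ((D (k + 1 + 1)).map (β m)))).comap
              (LinearMap.mulRight (ZMod p) b) := by
          rw [Submodule.span_le]
          rintro _ ⟨g, rfl⟩
          rw [SetLike.mem_coe, Submodule.mem_comap, LinearMap.mulRight_apply,
            AddSubgroup.mem_toZModSubmodule, mem_fib]
          obtain ⟨v, hv, hvb⟩ := ih b hb
          obtain ⟨w, hw⟩ := hβs m ⟨0, g⟩
          refine ⟨w * v * w⁻¹ * v⁻¹, ?_, ?_⟩
          · have h1 : w ∈ D 1 := by rw [hF.one]; exact Subgroup.mem_top w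
            have h2 := hF.comm 1 (k + 1) w h1 v hv
            have e : 1 + (k + 1) = k + 1 + 1 := by omega
            rw [e] at h2
            exact h2
          · rw [map_mul, map_mul, map_mul, map_inv, map_inv, hw, hvb]
            ext1
            · simp only [E1.mul_u, E1.mul_q, E1.inv_u, E1.inv_q, map_one, one_mul, mul_one,
                mul_zero, neg_zero, add_zero, zero_add, inv_one, mul_inv_cancel]
              rw [sub_mul, one_mul]
              abel
            · simp
        have h3 := hle2 ha'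
        exact h3
      intro u hu
      have h := hle hu
      exact h
  -- notation
  set B : Subgroup (E1 p (Lamp p m)) := (D (n + 1)).map (β m) with hB
  set q := qHom p (Lamp p m) with hqdef
  have hBn : B.Normal := by
    have := hF.normal (n + 1)
    exact Subgroup.Normal.map this (β m) (hβs m)
  have hAB : B.map q = (D (n + 1)).map (α m) := by
    rw [hB, Subgroup.map_map]
    congr 1
    ext1 w
    exact hq m w
  have hqs : Function.Surjective q := fun g => ⟨⟨0, g⟩, rfl⟩
  have hidx : (B ⊔ q.ker).index = ((D (n + 1)).map (α m)).index := by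
    rw [← hAB, ← Subgroup.comap_map_eq, Subgroup.index_comap_of_surjective _ hqs]
  have hmul : B.relIndex (B ⊔ q.ker) * (B ⊔ q.ker).index = B.index :=
    Subgroup.relIndex_mul_index le_sup_left
  have hrel : B.relIndex (B ⊔ q.ker) = B.relIndex q.ker := by
    rw [sup_comm]
    exact Subgroup.relIndex_sup_right _ _
  rw [← hmul, hidx, hrel]
  refine Nat.mul_le_mul_right _ ?_
  -- finiteness
  have hfA : Finite (MonoidAlgebra (ZMod p) (Lamp p m)) := by
    refine Finite.of_injective (fun u => (⟨u, 1⟩ : E1 p (Lamp p m))) ?_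
    intro u v huv
    exact congrArg E1.u huv
  have hfin : Finite (MonoidAlgebra (ZMod p) (Lamp p m) ⧸ (augI p (Lamp p m)) ^ n) :=
    Quotient.finite _
  have hcard : Nat.card (MonoidAlgebra (ZMod p) (Lamp p m) ⧸ (augI p (Lamp p m)) ^ n) =
      p ^ (Module.finrank (ZMod p) (MonoidAlgebra (ZMod p) (Lamp p m) ⧸
        (augI p (Lamp p m)) ^ n)) := by
    have := Module.natCard_eq_pow_finrank (K := ZMod p)
      (V := MonoidAlgebra (ZMod p) (Lamp p m) ⧸ (augI p (Lamp p m)) ^ n)
    rw [this, Nat.card_zmod]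
  rw [← hcard]
  -- the surjection
  have hwd : ∀ u v : MonoidAlgebra (ZMod p) (Lamp p m), u - v ∈ (augI p (Lamp p m)) ^ n →
      (QuotientGroup.mk (⟨⟨u, 1⟩, rfl⟩ : q.ker) : q.ker ⧸ B.subgroupOf q.ker) =
        QuotientGroup.mk (⟨⟨v, 1⟩, rfl⟩ : q.ker) := by
    intro u v huv
    rw [QuotientGroup.eq]
    have h1 : v - u ∈ (augI p (Lamp p m)) ^ n := by
      have := Submodule.neg_mem _ huv
      rwa [neg_sub] at this
    have h2 := step n (v - u) h1
    rw [Subgroup.mem_subgroupOf]
    have e : (((⟨⟨u, 1⟩, rfl⟩ : q.ker)⁻¹ * ⟨⟨v, 1⟩, rfl⟩ : q.ker) : E1 p (Lamp p m)) =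
        ⟨v - u, 1⟩ := by
      change (⟨u, 1⟩ : E1 p (Lamp p m))⁻¹ * ⟨v, 1⟩ = ⟨v - u, 1⟩
      ext1
      · simp only [E1.mul_u, E1.inv_u, E1.inv_q, inv_one, map_one, one_mul]
        abel
      · simp
    rw [e]
    exact h2
  let φ : (MonoidAlgebra (ZMod p) (Lamp p m) ⧸ (augI p (Lamp p m)) ^ n) →
      (q.ker ⧸ B.subgroupOf q.ker) :=
    Quotient.lift (fun u => QuotientGroup.mk (⟨⟨u, 1⟩, rfl⟩ : q.ker)) (by
      intro u v huv
      refine hwd u v ?_
      exact (Submodule.quotientRel_def _).mp huv)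
  have hφ : Function.Surjective φ := by
    intro y
    obtain ⟨⟨⟨u, g⟩, hg⟩, rfl⟩ := QuotientGroup.mk_surjective y
    have hg1 : g = 1 := hg
    subst hg1
    exact ⟨Submodule.Quotient.mk u, rfl⟩
  have := Nat.card_le_card_of_surjective φ hφ
  exact this

end Pool.Agent.H82.PRP
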